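import Pool.Agent.H40.G4

set_option autoImplicit false

namespace Pool.Agent.Results.MP_478558_lc.NotK

open Set Filter Topology
open Pool.Agent.H40.Bspt Pool.Agent.H40.Jz Pool.Agent.H40.Zt Pool.Agent.H40.Gn

theorem result : ∃ (M : Type) (E : M → M → Prop), IsZF E ∧ (∃ ν, Numer E ν) ∧
    ∃ (ℛ : Reals E) (T P A : M), Usual ℛ T ∧
      (∀ z, E z P ↔ ∃ x : Ex E ℛ.R, z = x.1 ∧ ∀ q : ℚ, x ≠ q) ∧ Sub E A P ∧
      (∀ K C, Sub E K P → Compact E K T → (∀ z, E z C ↔ E z A ∧ E z K) → Closed E K T C) ∧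
      ¬ Closed E P T A := by
  obtain ⟨M, E, Q, A, c⟩ := ex_cm
  obtain ⟨T, u⟩ := Q.ex_usual
  obtain ⟨P, hP⟩ := sep Q.zf (fun x => ¬ ∃ q, E q Q.W ∧ ¬ E q x ∧ ∀ p, E p Q.W → Q.Lt p q → E p x)
    Q.reals.R
  have pm : ∀ z, E z P ↔ ∃ x : Ex E Q.reals.R, z = x.1 ∧ ∀ q : ℚ, Q.ρ x ≠ q := fun z => by
    have k : ∀ x : Ex E Q.reals.R, (¬ ∃ q, E q Q.W ∧ ¬ E q x.1 ∧ ∀ p, E p Q.W → Q.Lt p q → E p x.1) ↔
        ∀ q : ℚ, Q.ρ x ≠ q := fun x => by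
      simp only [Q.exW, Q.allW, Q.lt, Q.ρ_mem, not_exists]
      exact forall_congr' fun q => not_congr ⟨fun ⟨a, b⟩ => le_antisymm (not_lt.1 a)
        (le_of_forall_rat_lt_imp_le fun p e => (b p (by exact_mod_cast e)).le),
        fun e => by simp [e]⟩
    rw [hP]
    exact ⟨fun ⟨a, b⟩ => ⟨⟨z, a⟩, rfl, (k _).1 b⟩, fun ⟨x, a, b⟩ => a ▸ ⟨x.2, (k _).2 b⟩⟩
  have ap : Sub E A P := fun z a => by
    obtain ⟨r, b, d⟩ := c.sub z a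
    obtain ⟨x, rfl, rfl⟩ := Q.ρ_of b
    exact (pm _).2 ⟨x, rfl, d⟩
  obtain ⟨a, r, a1, a2, -⟩ := c.dense 0 1 one_pos
  obtain ⟨a, rfl, rfl⟩ := Q.ρ_of a2
  obtain ⟨B, hB⟩ := sep Q.zf (fun x => ¬ x = a.1) A
  refine ⟨M, E, Q.zf, ⟨_, Q.num⟩, Q.reals, T, P, B, u, fun z => (pm z).trans (exists_congr fun x =>
    and_congr_right' (forall_congr' fun q => by rw [← Q.ρ_inj.ne_iff, map_ratCast])),
    fun z e => ap z ((hB z).1 e).1, fun K C h1 h2 h3 => ⟨fun z e => ((h3 z).1 e).2, fun x h4 h5 => ?_⟩,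
    fun h => ?_⟩
  · obtain ⟨O, hO⟩ := rel Q.zf (fun p q => ∀ y, E y K → E p y → E q y) Q.W Q.W
    have := c.cov O fun r => by
      obtain ⟨S, hS⟩ := sep Q.zf (fun U => ∃ p, E p Q.W ∧ ∃ q, E q Q.W ∧ Q.Lt p (Q.q r) ∧
        Q.Lt (Q.q r) q ∧ ∀ y, E y K → E y U → E p y → E q y) T
      simp only [Q.exW, Q.lt] at hS
      obtain ⟨D, d1, d2, d3⟩ := h2 S (fun U e => ((hS U).1 e).1) fun y e => by
        obtain ⟨y, rfl, f⟩ := (pm y).1 (h1 y e)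
        have k : ∀ (p q : ℚ) U, (∀ y : Ex E Q.reals.R, E y.1 U → p < Q.ρ y → q < Q.ρ y) →
            ∀ y, E y K → E y U → E (Q.q p) y → E (Q.q q) y := fun p q U g y i => by
          obtain ⟨y, rfl, -⟩ := (pm y).1 (h1 y i)
          rw [Q.ρ_mem, Q.ρ_mem]
          exact g y
        rcases (f r).lt_or_gt with g | g
        · obtain ⟨p, g1, g2⟩ := exists_rat_btwn g
          obtain ⟨U, i1, i2⟩ := QM.ex_lt u (p : Ex E Q.reals.R)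
          rw [map_ratCast] at i2
          exact ⟨U, (hS U).2 ⟨i1, p, r + 1, by exact_mod_cast g2, lt_add_one r,
            k _ _ _ fun y a b => absurd ((i2 y).1 a) b.not_gt⟩, (i2 y).2 g1⟩
        · obtain ⟨p, g1, g2⟩ := exists_rat_btwn g
          obtain ⟨U, i1, i2⟩ := QM.ex_gt u (p : Ex E Q.reals.R)
          rw [map_ratCast] at i2
          exact ⟨U, (hS U).2 ⟨i1, r - 1, p, sub_one_lt r, by exact_mod_cast g1,
            k _ _ _ fun y a _ => (i2 y).1 a⟩, (i2 y).2 g2⟩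
      have : ∀ᶠ t in 𝓝[<] r ×ˢ 𝓝[>] r, ∀ U ∈ {U | E U D}, ∀ y, E y K → E y U →
          E (Q.q t.1) y → E (Q.q t.2) y := (eventually_all_finite (fin_ext Q.num d2)).2 fun U e => by
        obtain ⟨-, p, q, f, g, i⟩ := (hS U).1 (d1 U e)
        filter_upwards [prod_mem_prod (Ioo_mem_nhdsLT f) (Ioo_mem_nhdsGT g)] with t l y m n
        have := i y m n
        obtain ⟨y, rfl, -⟩ := (pm y).1 (h1 y m)
        rw [Q.ρ_mem, Q.ρ_mem] at this ⊢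
        exact fun o => lt_trans (by exact_mod_cast l.2.2) (this (lt_trans (by exact_mod_cast l.1.1) o))
      obtain ⟨t, t1, t2⟩ := (this.and (prod_mem_prod self_mem_nhdsWithin self_mem_nhdsWithin)).exists
      exact ⟨t.1, t.2, t2.1, t2.2, (hO _ _).2 ⟨(Q.w _).2 ⟨_, rfl⟩, (Q.w _).2 ⟨_, rfl⟩, fun y e =>
        (d3 y e).elim fun U f => t1 U f.1 y e f.2⟩⟩
    obtain ⟨U, k1, k2⟩ := QM.ex_cf u (C := C) (this.subset fun z e => ⟨((hB z).1 ((h3 z).1 e).1).1,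
      fun ⟨p, q, f, g, i⟩ => i (((hO _ _).1 f).2.2 z ((h3 z).1 e).2 g)⟩)
    obtain ⟨x, rfl, -⟩ := (pm x).1 (h1 x h4)
    exact ⟨U, k1, (k2 x).2 h5, fun y e => (k2 ⟨y, ((u U).1 k1).1 y e⟩).1 e⟩
  · obtain ⟨U, k1, k2, k3⟩ := h.2 a.1 (ap _ a1) fun e => ((hB _).1 e).2 rfl
    obtain ⟨p, q, d1, d2, d3⟩ := QM.op u k1 a k2
    obtain ⟨s, e1, e2⟩ := exists_rat_btwn d2
    obtain ⟨b, r, f1, f2, f3, f4⟩ := c.dense s q (by exact_mod_cast e2)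
    obtain ⟨b, rfl, rfl⟩ := Q.ρ_of f2
    exact k3 _ (d3 b (d1.trans (e1.trans f3)) f4.le) ((hB _).2 ⟨f1, fun e =>
      (e1.trans f3).ne' (congrArg Q.ρ (Subtype.ext e))⟩)

end Pool.Agent.Results.MP_478558_lc.NotK
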